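import Mathlib

/-! Changing decidability instances. -/

set_option autoImplicit false

namespace Run7.h640.FP2

theorem erase_dec {α : Type*} (i j : DecidableEq α) (S : Finset α) (m : α) :
    @Finset.erase α i S m = @Finset.erase α j S m := by
  rw [Subsingleton.elim i j]

theorem image_dec {α β : Type*} (i j : DecidableEq β) (f : α → β) (S : Finset α) :
    @Finset.image α β i f S = @Finset.image α β j f S := by
  rw [Subsingleton.elim i j]

end Run7.h640.FP2
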