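import Pool.Agent.Run7.h640.FP.Iface
import Pool.Agent.Run7.h640.FP2.Dec

/-!
Project FP of helper640, piece CMP: comparison of the balance constants. Written by helper973; here
without `convert`.
-/

set_option autoImplicit false

open Finset
open Run7.h640.FP

namespace Run7.h640.FP2

theorem Fk_self {α : Type*} (r : α → α → Prop) (x : α) (k : ℕ) (S : Finset α) : Fk r x x k S = 0 := by
  classical
  induction k generalizing S with
  | zero => rfl
  | succ k ih =>
    show ∑ m ∈ Mn r S, _ = 0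
    refine sum_eq_zero fun m _ => ?_
    by_cases h : m = x
    · rw [if_pos h]
    · rw [if_neg h, if_neg h]
      exact ih _

theorem Fk_rev {α : Type*} (r : α → α → Prop) {x y : α} (hxy : r x y) (hne : x ≠ y) (k : ℕ) (S : Finset α)
    (hx : x ∈ S) : Fk r y x k S = 0 := by
  classical
  induction k generalizing S with
  | zero => rfl
  | succ k ih =>
    show ∑ m ∈ Mn r S, _ = 0
    refine sum_eq_zero fun m hm => ?_
    by_cases h : m = x
    · rw [if_pos h]
    · by_cases h2 : m = y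
      · exfalso
        unfold Mn at hm
        rw [mem_filter] at hm
        rw [h2] at hm
        exact hm.2 x hx hxy
      · rw [if_neg h, if_neg h2]
        exact ih _ (mem_erase.2 ⟨fun h3 => h h3.symm, hx⟩)

theorem pr_nonneg {α : Type*} (r : α → α → Prop) (x y : α) (S : Finset α) : 0 ≤ pr r x y S := by
  unfold pr
  positivity

theorem le_bal (r : ℕ → ℕ → Prop) {n x y : ℕ} (hx : x < n) (hy : y < n) :
    min (pr r x y (range n)) (pr r y x (range n)) ≤ bal r n := by
  unfold bal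
  exact le_ciSup (f := fun p : Fin n × Fin n =>
    min (pr r (p.1 : ℕ) (p.2 : ℕ) (range n)) (pr r (p.2 : ℕ) (p.1 : ℕ) (range n)))
    (Set.finite_range _).bddAbove (⟨x, hx⟩, ⟨y, hy⟩)

theorem bal_nonneg (r : ℕ → ℕ → Prop) {n : ℕ} (hn : 0 < n) : 0 ≤ bal r n :=
  (le_min (pr_nonneg _ _ _ _) (pr_nonneg _ _ _ _)).trans (le_bal r hn hn)

theorem rho_nonneg {D : ℕ} (hD : 1 ≤ D) : 0 ≤ rho D := by
  have hD0 : (0 : ℝ) < D := by exact_mod_cast hD
  unfold rho
  have h3 : (1 : ℝ) ≤ (2 * D) ^ D := by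
    apply one_le_pow₀
    have : (1 : ℝ) ≤ D := by exact_mod_cast hD
    linarith
  have h4 : 1 / (2 * (D : ℝ)) ^ D ≤ 1 := by
    rw [div_le_one (by positivity)]
    exact h3
  linarith

/-- comparison with a window -/
theorem win_cmp (hPOS : S_POS) (hSTEP : S_STEP) (hDUAL : S_DUAL) (hMAP : S_MAP) (hB : S_LOCB) (hT : S_LOCT)
    {D q n a b x y : ℕ} {r : ℕ → ℕ → Prop} (hD : 1 ≤ D) (hr : Band D r) (hbn : b ≤ n)
    (hax : a ≤ x) (hay : a ≤ y) (hxb : x < b) (hyb : y < b) (hxy : x ≠ y)
    (hlo : a = 0 ∨ (a + (q + 1) * D ≤ x ∧ a + (q + 1) * D ≤ y))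
    (hhi : b = n ∨ (x + (q + 1) * D < b ∧ y + (q + 1) * D < b)) :
    |pr r x y (range n) - pr r x y (Ico a b)| ≤ 2 * rho D ^ q := by
  have h0 : 0 ≤ rho D ^ q := pow_nonneg (rho_nonneg hD) q
  have h1 : |pr r x y (range n) - pr r x y (Ico a n)| ≤ rho D ^ q := by
    rw [range_eq_Ico]
    rcases hlo with rfl | h
    · rw [sub_self, abs_zero]
      exact h0
    · exact hB hPOS hSTEP D r hD hr 0 a n q x y (Nat.zero_le _) h.1 h.2 (by omega) (by omega) hxy
  have h2 : |pr r x y (Ico a n) - pr r x y (Ico a b)| ≤ rho D ^ q := by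
    rcases hhi with rfl | h
    · rw [sub_self, abs_zero]
      exact h0
    · exact hT hPOS hSTEP hDUAL hMAP hB D r hD hr a b n q x y hbn hax hay h.1 h.2 hxy
  have h3 : pr r x y (range n) - pr r x y (Ico a b) =
      (pr r x y (range n) - pr r x y (Ico a n)) + (pr r x y (Ico a n) - pr r x y (Ico a b)) := by ring
  rw [h3]
  refine (abs_add_le _ _).trans ?_
  linarith

/-- the windows -/
theorem exists_win {R m D n n' x y : ℕ} {r r' : ℕ → ℕ → Prop} (hD : 1 ≤ D) (hR : 2 * m + 2 * D ≤ R)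
    (hL : Loc R r' n' r n) (hxy : x < y) (hyn : y < n') (hyx : y < x + D) :
    ∃ t s, t + R ≤ n' ∧ s + R ≤ n ∧ t ≤ x ∧ y < t + R ∧ Win R r' t r s ∧
      ((t = 0 ∧ s = 0) ∨ t + m ≤ x) ∧ ((t + R = n' ∧ s + R = n) ∨ y + m < t + R) := by
  have h1 := hL.len'
  have h2 := hL.len
  by_cases hx : x < m
  · exact ⟨0, 0, by omega, by omega, by omega, by omega, hL.bot, Or.inl ⟨rfl, rfl⟩, Or.inr (by omega)⟩
  · by_cases hx2 : x - m + R ≤ n'
    · obtain ⟨s, hs, hw⟩ := hL.mid (x - m) hx2
      exact ⟨x - m, s, hx2, hs, by omega, by omega, hw, Or.inr (by omega), Or.inr (by omega)⟩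
    · exact ⟨n' - R, n - R, by omega, by omega, by omega, by omega, hL.top, Or.inr (by omega),
        Or.inl ⟨by omega, by omega⟩⟩

theorem transl (hMAP : S_MAP) {R t s : ℕ} {r r' : ℕ → ℕ → Prop} (hw : Win R r' t r s) {x y : ℕ}
    (hx : t ≤ x) (hx' : x < t + R) (hy : t ≤ y) (hy' : y < t + R) :
    pr r' x y (Ico t (t + R)) = pr r (x - t + s) (y - t + s) (Ico s (s + R)) := by
  classical
  have h1 := hMAP ℕ ℕ r' r (fun u => u - t + s) (Ico t (t + R)) (by
    intro u hu v hv huv
    rw [mem_coe, mem_Ico] at hu hv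
    simp only at huv
    omega) (by
    intro u hu v hv
    rw [mem_Ico] at hu hv
    have h2 := hw (u - t) (v - t) (by omega) (by omega)
    have e1 : t + (u - t) = u := by omega
    have e2 : t + (v - t) = v := by omega
    rw [e1, e2, add_comm s, add_comm s] at h2
    exact h2.symm)
  have h2 : (Ico t (t + R)).image (fun u => u - t + s) = Ico s (s + R) := by
    ext z
    rw [mem_image, mem_Ico]
    constructor
    · rintro ⟨u, hu, rfl⟩
      rw [mem_Ico] at hu
      omega
    · intro hz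
      refine ⟨z - s + t, mem_Ico.2 (by omega), by omega⟩
  have h3 : En r (Ico s (s + R)) = En r' (Ico t (t + R)) := by
    rw [← h2]
    rw [image_dec _ (fun a b => Classical.propDecidable (a = b))]
    exact h1.1
  have h4 : Fn r (x - t + s) (y - t + s) (Ico s (s + R)) = Fn r' x y (Ico t (t + R)) := by
    rw [← h2]
    rw [image_dec _ (fun a b => Classical.propDecidable (a = b))]
    exact h1.2 x (mem_Ico.2 ⟨hx, hx'⟩) y (mem_Ico.2 ⟨hy, hy'⟩)
  unfold pr
  rw [h3, h4]

theorem cmp_lt (hPOS : S_POS) (hSTEP : S_STEP) (hDUAL : S_DUAL) (hMAP : S_MAP) (hB : S_LOCB) (hT : S_LOCT)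
    {D R q n n' : ℕ} {r r' : ℕ → ℕ → Prop} (hD : 1 ≤ D) (hR : 2 * (q + 2) * D ≤ R) (hr : Band D r)
    (hr' : Band D r') (hL : Loc R r' n' r n) {x y : ℕ} (hxy : x < y) (hyn : y < n') :
    min (pr r' x y (range n')) (pr r' y x (range n')) ≤ bal r n + 4 * rho D ^ q := by
  have h0 : 0 ≤ rho D ^ q := pow_nonneg (rho_nonneg hD) q
  have hR0 : 0 < R := lt_of_lt_of_le (by positivity) hR
  have hn := hL.len
  have hb0 : 0 ≤ bal r n := bal_nonneg r (by omega)
  by_cases hyx : y < x + D
  · obtain ⟨m, hm⟩ : ∃ m, m = (q + 1) * D := ⟨_, rfl⟩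
    have hR' : 2 * m + 2 * D ≤ R := by
      refine le_trans (le_of_eq ?_) hR
      rw [hm]
      ring
    obtain ⟨t, s, ht, hs, htx, hyt, hw, hlo, hhi⟩ := exists_win hD hR' hL hxy hyn hyx
    have h1 := win_cmp (q := q) hPOS hSTEP hDUAL hMAP hB hT hD hr' (n := n') (a := t) (b := t + R)
      (x := x) (y := y) ht htx (by omega) (by omega) hyt hxy.ne
      (by rw [← hm]; omega) (by rw [← hm]; omega)
    have h2 := win_cmp (q := q) hPOS hSTEP hDUAL hMAP hB hT hD hr' (n := n') (a := t) (b := t + R)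
      (x := y) (y := x) ht (by omega) htx hyt (by omega) hxy.ne'
      (by rw [← hm]; omega) (by rw [← hm]; omega)
    have h3 := win_cmp (q := q) hPOS hSTEP hDUAL hMAP hB hT hD hr (n := n) (a := s) (b := s + R)
      (x := x - t + s) (y := y - t + s) hs (by omega) (by omega) (by omega) (by omega) (by omega)
      (by rw [← hm]; omega) (by rw [← hm]; omega)
    have h4 := win_cmp (q := q) hPOS hSTEP hDUAL hMAP hB hT hD hr (n := n) (a := s) (b := s + R)
      (x := y - t + s) (y := x - t + s) hs (by omega) (by omega) (by omega) (by omega) (by omega)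
      (by rw [← hm]; omega) (by rw [← hm]; omega)
    rw [transl hMAP hw htx (by omega) (by omega) hyt] at h1
    rw [transl hMAP hw (by omega) hyt htx (by omega)] at h2
    have h5 := le_bal r (n := n) (x := x - t + s) (y := y - t + s) (by omega) (by omega)
    have h6 : min (pr r' x y (range n')) (pr r' y x (range n')) ≤
        min (pr r (x - t + s) (y - t + s) (range n)) (pr r (y - t + s) (x - t + s) (range n)) + 4 * rho D ^ q := by
      rw [← min_add_add_right]
      rw [abs_le] at h1 h2 h3 h4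
      refine le_min ((min_le_left _ _).trans ?_) ((min_le_right _ _).trans ?_)
      · linarith [h1.2, h3.1]
      · linarith [h2.2, h4.1]
    linarith
  · have h1 : r' x y := hr'.far x y (by omega) hxy
    have h2 : pr r' y x (range n') = 0 := by
      unfold pr Fn
      rw [Fk_rev r' h1 hxy.ne _ _ (mem_range.2 (by omega)), Nat.cast_zero, zero_div]
    refine (min_le_right _ _).trans ?_
    rw [h2]
    linarith

/-- **CMP** -/
theorem prove_CMP : S_CMP := by
  intro hPOS hMAP hB hT hSTEP hDUAL D R q n n' r r' hD hR hr hr' hL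
  have h0 : 0 ≤ rho D ^ q := pow_nonneg (rho_nonneg hD) q
  have hR0 : 0 < R := lt_of_lt_of_le (by positivity) hR
  have hn := hL.len
  have hn' := hL.len'
  have hb0 : 0 ≤ bal r n := bal_nonneg r (by omega)
  have : Nonempty (Fin n' × Fin n') := ⟨(⟨0, by omega⟩, ⟨0, by omega⟩)⟩
  have h1 : bal r' n' = ⨆ p : Fin n' × Fin n', min (pr r' (p.1 : ℕ) (p.2 : ℕ) (range n'))
      (pr r' (p.2 : ℕ) (p.1 : ℕ) (range n')) := rfl
  rw [h1]
  refine ciSup_le fun p => ?_
  rcases lt_trichotomy (p.1 : ℕ) (p.2 : ℕ) with h | h | h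
  · exact cmp_lt hPOS hSTEP hDUAL hMAP hB hT hD hR hr hr' hL h p.2.2
  · have h2 : pr r' (p.1 : ℕ) (p.2 : ℕ) (range n') = 0 := by
      rw [h]
      unfold pr Fn
      rw [Fk_self, Nat.cast_zero, zero_div]
    refine (min_le_left _ _).trans ?_
    rw [h2]
    linarith
  · rw [min_comm]
    exact cmp_lt hPOS hSTEP hDUAL hMAP hB hT hD hR hr hr' hL h p.1.2

end Run7.h640.FP2
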