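import Pool.Agent.Run7.h973.FP.Base
import Pool.Agent.Run7.h640.FP2.Dec

/-!
Project FP of helper640, piece LOCB: the distribution forgets the bottom part. Written by helper973;
here without `convert`.
-/

set_option autoImplicit false

open Finset
open Run7.h640.FP Run7.h973.FP

namespace Run7.h640.FP2

theorem En_nat (r : ℕ → ℕ → Prop) {S : Finset ℕ} (hS : S.Nonempty) :
    En r S = ∑ m ∈ Mn r S, En r (S.erase m) := by
  rw [En_succ r hS]
  refine sum_congr rfl fun m _ => ?_
  rw [erase_dec _ instDecidableEqNat]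

theorem Fn_nat (r : ℕ → ℕ → Prop) (x y : ℕ) {S : Finset ℕ} (hS : S.Nonempty) :
    Fn r x y S = ∑ m ∈ Mn r S, if m = y then 0 else if m = x then En r (S.erase m) else
      Fn r x y (S.erase m) := by
  rw [Fn_succ r x y hS]
  refine sum_congr rfl fun m _ => ?_
  by_cases h1 : m = y
  · rw [if_pos h1, if_pos h1]
  · rw [if_neg h1, if_neg h1]
    by_cases h2 : m = x
    · rw [if_pos h2, if_pos h2, erase_dec _ instDecidableEqNat]
    · rw [if_neg h2, if_neg h2, erase_dec _ instDecidableEqNat]

theorem step_nat (hST : S_STEP) {D : ℕ} {r : ℕ → ℕ → Prop} (hD : 1 ≤ D) (hr : Band D r)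
    {S : Finset ℕ} {m : ℕ} (hm : m ∈ S) (hmin : ∀ a ∈ S, m ≤ a) :
    m ∈ Mn r S ∧ En r S ≤ D * En r (S.erase m) := by
  have hmM : m ∈ Mn r S := mem_Mn.2 ⟨hm, fun a ha h => by
    have := hr.lt a m h
    have := hmin a ha
    omega⟩
  refine ⟨hmM, ?_⟩
  have := hr.strict
  have h1 := hST ℕ r S m (D - 1) hmM (by
    refine (card_le_card (t := Ioo m (m + D)) ?_).trans ?_
    · intro a ha
      obtain ⟨ha1, ha2, ha3⟩ := (@mem_filter _ _ (_) _ _).1 ha
      have h2 := hmin a ha1
      rw [mem_Ioo]
      refine ⟨by omega, ?_⟩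
      by_contra hcon
      exact ha3 (hr.far m a (by omega) (by omega))
    · rw [Nat.card_Ioo]
      omega)
  have h2 : D - 1 + 1 = D := by omega
  rw [h2, erase_dec _ instDecidableEqNat] at h1
  exact h1

/-- upper sets of `Ico l b` with a complement of `s` elements -/
structure Up (r : ℕ → ℕ → Prop) (l b s : ℕ) (S : Finset ℕ) : Prop where
  sub : S ⊆ Ico l b
  up : ∀ u ∈ S, ∀ v ∈ Ico l b, r u v → v ∈ S
  card : S.card + s = b - l

theorem Up.lt {D : ℕ} {r : ℕ → ℕ → Prop} (hD : 1 ≤ D) (hr : Band D r) {l b s : ℕ} {S : Finset ℕ}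
    (h : Up r l b s S) {z : ℕ} (hz : z ∈ Ico l b) (hzS : z ∉ S) : z + 1 < l + s + D := by
  by_contra hcon
  have h1 : insert z (Ico l (z + 1 - D)) ⊆ Ico l b \ S := by
    intro i hi
    rw [mem_insert] at hi
    rcases hi with rfl | hi
    · rw [mem_sdiff]
      exact ⟨hz, hzS⟩
    · rw [mem_Ico] at hi hz
      rw [mem_sdiff, mem_Ico]
      refine ⟨⟨hi.1, by omega⟩, fun hiS => hzS ?_⟩
      exact h.up i hiS z (mem_Ico.2 hz) (hr.far i z (by omega) (by omega))
  have h2 := card_le_card h1
  rw [card_insert_of_notMem (by rw [mem_Ico]; omega), Nat.card_Ico, card_sdiff_of_subset h.sub,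
    Nat.card_Ico] at h2
  have h3 := h.card
  have h4 : s ≠ 0 := by
    intro h0
    have h5 : S = Ico l b := eq_of_subset_of_card_le h.sub (by rw [Nat.card_Ico]; omega)
    exact hzS (h5 ▸ hz)
  omega

theorem Up.erase {r : ℕ → ℕ → Prop} {l b s : ℕ} {S : Finset ℕ} (h : Up r l b s S) {m : ℕ}
    (hm : m ∈ Mn r S) : Up r l b (s + 1) (S.erase m) := by
  rw [mem_Mn] at hm
  refine ⟨(erase_subset _ _).trans h.sub, fun u hu v hv huv => ?_, ?_⟩
  · rw [mem_erase] at hu ⊢
    refine ⟨?_, h.up u hu.2 v hv huv⟩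
    rintro rfl
    exact hm.2 u hu.2 huv
  · rw [card_erase_of_mem hm.1]
    have h1 := h.card
    have h2 : 0 < S.card := card_pos.2 ⟨m, hm.1⟩
    omega

theorem Up.nonempty {r : ℕ → ℕ → Prop} {l b s : ℕ} {S : Finset ℕ} (h : Up r l b s S)
    (hs : s < b - l) : S.Nonempty := by
  rw [← card_pos]
  have := h.card
  omega

theorem Up.Ico {r : ℕ → ℕ → Prop} {D : ℕ} (hr : Band D r) {l a b : ℕ} (hla : l ≤ a) (hab : a ≤ b) :
    Up r l b (a - l) (Ico a b) := by
  refine ⟨Ico_subset_Ico_left hla, fun u hu v hv huv => ?_, ?_⟩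
  · rw [mem_Ico] at hu hv ⊢
    have := hr.lt u v huv
    omega
  · rw [Nat.card_Ico]
    omega

section avg

variable {r : ℕ → ℕ → Prop} {l b : ℕ} {g : Finset ℕ → ℝ}

/-- the averaging property -/
def Av (r : ℕ → ℕ → Prop) (l b : ℕ) (g : Finset ℕ → ℝ) (s : ℕ) : Prop :=
  ∀ S, Up r l b s S → g S = ∑ m ∈ Mn r S, g (S.erase m)

theorem En_real {S : Finset ℕ} (hS : S.Nonempty) : (En r S : ℝ) = ∑ m ∈ Mn r S, (En r (S.erase m) : ℝ) := by
  rw [En_nat r hS]
  push_cast
  rfl

/-- one step down -/
theorem desc1 {s : ℕ} (hs : s < b - l) (hg : Av r l b g s) {v : ℝ}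
    (h : ∀ S, Up r l b (s + 1) S → g S ≤ v * En r S) : ∀ S, Up r l b s S → g S ≤ v * En r S := by
  intro S hS
  rw [hg S hS, En_real (hS.nonempty hs), mul_sum]
  exact sum_le_sum fun m hm => h _ (hS.erase hm)

theorem desc {s : ℕ} {v : ℝ} (k : ℕ) (hk : s + k ≤ b - l) (hg : ∀ s' < s + k, s ≤ s' → Av r l b g s')
    (h : ∀ S, Up r l b (s + k) S → g S ≤ v * En r S) : ∀ S, Up r l b s S → g S ≤ v * En r S := by
  induction k with
  | zero => exact h
  | succ k ih =>
    exact ih (by omega) (fun s' h1 h2 => hg s' (by omega) h2)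
      (desc1 (by omega) (hg (s + k) (by omega) (by omega)) h)

/-- the contraction -/
theorem contr (hST : S_STEP) {D : ℕ} (hD : 1 ≤ D) (hr : Band D r) {s : ℕ} (hs : l + s + D ≤ b)
    (hg : ∀ s' < s + D, s ≤ s' → Av r l b g s') {v f₀ : ℝ} (hv : f₀ ≤ v)
    (h : ∀ S, Up r l b (s + D) S → g S ≤ v * En r S)
    (h0 : g (Ico (l + s + D) b) ≤ f₀ * En r (Ico (l + s + D) b)) (k : ℕ) :
    ∀ j, j + k = D → ∀ S, Up r l b (s + j) S → Ico l b \ S ⊆ Ico l (l + s + D) →
      g S ≤ (v - (1 / (2 * (D : ℝ))) ^ k * (v - f₀)) * En r S := by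
  have hD0 : (0 : ℝ) < D := by exact_mod_cast hD
  induction k with
  | zero =>
    intro j hj S hS hsub
    have h1 : S = Ico (l + s + D) b := by
      have h2 : Ico l b \ S = Ico l (l + s + D) := by
        apply eq_of_subset_of_card_le hsub
        rw [Nat.card_Ico, card_sdiff_of_subset hS.sub, Nat.card_Ico]
        have := hS.card
        omega
      ext z
      constructor
      · intro hz
        have h3 := hS.sub hz
        rw [mem_Ico] at h3 ⊢
        refine ⟨?_, h3.2⟩
        by_contra hcon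
        have h4 : z ∈ Ico l b \ S := by
          rw [h2, mem_Ico]
          omega
        rw [mem_sdiff] at h4
        exact h4.2 hz
      · intro hz
        by_contra hcon
        have h4 : z ∈ Ico l b \ S := by
          rw [mem_sdiff]
          refine ⟨?_, hcon⟩
          rw [mem_Ico] at hz ⊢
          omega
        rw [h2, mem_Ico] at h4
        rw [mem_Ico] at hz
        omega
    rw [h1, pow_zero, one_mul, sub_sub_cancel]
    exact h0
  | succ k ih =>
    intro j hj S hS hsub
    have hne : S.Nonempty := hS.nonempty (by omega)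
    obtain ⟨m, hmS, hmin⟩ : ∃ m ∈ S, ∀ a ∈ S, m ≤ a := ⟨S.min' hne, min'_mem _ _, fun a ha => min'_le _ _ ha⟩
    obtain ⟨hmM, hstep⟩ := step_nat hST hD hr hmS hmin
    have hmlt : m < l + s + D := by
      by_contra hcon
      have h1 : Ico l (l + s + D) ⊆ Ico l b \ S := by
        intro z hz
        rw [mem_Ico] at hz
        rw [mem_sdiff, mem_Ico]
        refine ⟨by omega, fun hzS => ?_⟩
        have := hmin z hzS
        omega
      have h2 := card_le_card h1
      rw [Nat.card_Ico, card_sdiff_of_subset hS.sub, Nat.card_Ico] at h2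
      have := hS.card
      omega
    have hmI := hS.sub hmS
    rw [mem_Ico] at hmI
    have h1 : ∀ m' ∈ Mn r S, g (S.erase m') ≤ v * En r (S.erase m') := by
      intro m' hm'
      have h2 := hS.erase hm'
      refine desc (s := s + j + 1) k (by omega) (fun s' h3 h4 => hg s' (by omega) (by omega)) ?_ _ h2
      have h3 : s + j + 1 + k = s + D := by omega
      rw [h3]
      exact h
    have h2 : g (S.erase m) ≤ (v - (1 / (2 * (D : ℝ))) ^ k * (v - f₀)) * En r (S.erase m) := by
      refine ih (j + 1) (by omega) _ (hS.erase hmM) ?_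
      intro z hz
      rw [mem_sdiff, mem_erase] at hz
      by_cases hzm : z = m
      · rw [hzm, mem_Ico]
        exact ⟨hmI.1, hmlt⟩
      · exact hsub (mem_sdiff.2 ⟨hz.1, fun h3 => hz.2 ⟨hzm, h3⟩⟩)
    obtain ⟨c, hc⟩ : ∃ c : ℝ, c = (1 / (2 * (D : ℝ))) ^ k * (v - f₀) := ⟨_, rfl⟩
    have hc0 : 0 ≤ c := by
      rw [hc]
      exact mul_nonneg (by positivity) (by linarith)
    rw [← hc] at h2
    have h3 : g S ≤ v * En r S - c * En r (S.erase m) := by
      rw [hg (s + j) (by omega) (by omega) S hS, En_real hne, mul_sum,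
        ← sum_erase_add _ _ hmM, ← sum_erase_add (a := m) (Mn r S) (fun i => v * (En r (S.erase i) : ℝ)) hmM]
      have h4 : ∑ x ∈ (Mn r S).erase m, g (S.erase x) ≤ ∑ x ∈ (Mn r S).erase m, v * (En r (S.erase x) : ℝ) :=
        sum_le_sum fun x hx => h1 x (mem_of_mem_erase hx)
      linarith
    have h4 : (En r S : ℝ) ≤ 2 * D * En r (S.erase m) := by
      have h5 : (En r S : ℝ) ≤ D * En r (S.erase m) := by exact_mod_cast hstep
      have h6 : (0 : ℝ) ≤ D * En r (S.erase m) := by positivity
      linarith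
    have h5 : (1 / (2 * (D : ℝ))) * En r S ≤ En r (S.erase m) := by
      rw [div_mul_eq_mul_div, one_mul, div_le_iff₀ (by positivity)]
      linarith
    have h6 : (v - (1 / (2 * (D : ℝ))) ^ (k + 1) * (v - f₀)) * En r S =
        v * En r S - c * ((1 / (2 * (D : ℝ))) * En r S) := by
      rw [hc, pow_succ]
      ring
    rw [h6]
    have h7 := mul_le_mul_of_nonneg_left h5 hc0
    linarith

end avg

/-- **LOCB** -/
theorem prove_LOCB : S_LOCB := by
  intro hPOS hST D r hD hr l a b q x y hla hax hay hxb hyb hxy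
  have hstr := hr.strict
  have hD0 : (0 : ℝ) < D := by exact_mod_cast hD
  have hpos : ∀ S : Finset ℕ, (0 : ℝ) < En r S := fun S => by exact_mod_cast (hPOS ℕ r S).1
  -- averaging
  have hav : ∀ s, l + s + D ≤ x → l + s + D ≤ y → Av r l b (fun S => (Fn r x y S : ℝ)) s := by
    intro s hsx hsy S hS
    have hne : S.Nonempty := hS.nonempty (by omega)
    show (Fn r x y S : ℝ) = ∑ m ∈ Mn r S, (Fn r x y (S.erase m) : ℝ)
    rw [Fn_nat r x y hne]
    push_cast
    refine sum_congr rfl fun m hm => ?_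
    have h1 := hS.erase hm
    have h2 := mem_Mn.1 hm
    have h3 := h1.lt hD hr (hS.sub h2.1) (notMem_erase _ _)
    rw [if_neg (by omega), if_neg (by omega)]
  have hav' : ∀ s, l + s + D ≤ x → l + s + D ≤ y → Av r l b (fun S => -(Fn r x y S : ℝ)) s := by
    intro s hsx hsy S hS
    have h1 := hav s hsx hsy S hS
    show -(Fn r x y S : ℝ) = ∑ m ∈ Mn r S, -(Fn r x y (S.erase m) : ℝ)
    rw [sum_neg_distrib]
    exact congrArg Neg.neg h1
  have hmain : ∀ q s, l + s + (q + 1) * D ≤ x → l + s + (q + 1) * D ≤ y →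
      ∃ u v : ℝ, v - u ≤ rho D ^ q ∧ ∀ S, Up r l b s S →
        u * En r S ≤ Fn r x y S ∧ (Fn r x y S : ℝ) ≤ v * En r S := by
    intro q
    induction q with
    | zero =>
      intro s hsx hsy
      rw [zero_add, one_mul] at hsx hsy
      refine ⟨0, 1, by rw [pow_zero, sub_zero], fun S hS => ⟨?_, ?_⟩⟩
      · rw [zero_mul]
        positivity
      · rw [one_mul]
        have hx : x ∈ S := by
          by_contra hcon
          have := hS.lt hD hr (z := x) (mem_Ico.2 (by omega)) hcon
          omega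
        have hy : y ∈ S := by
          by_contra hcon
          have := hS.lt hD hr (z := y) (mem_Ico.2 (by omega)) hcon
          omega
        have h1 := (hPOS ℕ r S).2 x hx y hy hxy
        have h2 : Fn r x y S ≤ En r S := by omega
        exact_mod_cast h2
    | succ q ih =>
      intro s hsx hsy
      have e1 : (q + 1 + 1) * D = (q + 1) * D + D := by ring
      rw [e1] at hsx hsy
      have e2 : D ≤ (q + 1) * D := Nat.le_mul_of_pos_left D (Nat.succ_pos q)
      obtain ⟨u, v, huv, hS⟩ := ih (s + D) (by omega) (by omega)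
      have hS0 := hS (Ico (l + s + D) b) (by
        have := Up.Ico (b := b) hr (l := l) (a := l + s + D) (by omega) (by omega)
        have e3 : l + s + D - l = s + D := by omega
        rwa [e3] at this)
      obtain ⟨f₀, hf₀⟩ : ∃ f₀ : ℝ, f₀ = (Fn r x y (Ico (l + s + D) b) : ℝ) / En r (Ico (l + s + D) b) := ⟨_, rfl⟩
      have hf1 : (Fn r x y (Ico (l + s + D) b) : ℝ) = f₀ * En r (Ico (l + s + D) b) := by
        rw [hf₀, div_mul_cancel₀ _ (hpos _).ne']
      have hfv : f₀ ≤ v := by
        rw [hf₀, div_le_iff₀ (hpos _)]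
        exact hS0.2
      have hfu : u ≤ f₀ := by
        rw [hf₀, le_div_iff₀ (hpos _)]
        exact hS0.1
      refine ⟨u + (1 / (2 * (D : ℝ))) ^ D * (f₀ - u), v - (1 / (2 * (D : ℝ))) ^ D * (v - f₀), ?_, ?_⟩
      · have h1 : (v - (1 / (2 * (D : ℝ))) ^ D * (v - f₀)) - (u + (1 / (2 * (D : ℝ))) ^ D * (f₀ - u)) =
            rho D * (v - u) := by
          unfold rho
          rw [one_div_pow]
          ring
        rw [h1, pow_succ, mul_comm (rho D ^ q)]
        have h2 : 0 ≤ rho D := by
          unfold rho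
          have h3 : (1 : ℝ) ≤ (2 * D) ^ D := by
            apply one_le_pow₀
            have : (1 : ℝ) ≤ D := by exact_mod_cast hD
            linarith
          have h4 : 1 / (2 * (D : ℝ)) ^ D ≤ 1 := by
            rw [div_le_one (by positivity)]
            exact h3
          linarith
        exact mul_le_mul_of_nonneg_left huv h2
      · intro S hSs
        have hsub : Finset.Ico l b \ S ⊆ Finset.Ico l (l + s + D) := by
          intro z hz
          rw [mem_sdiff] at hz
          have h1 := hSs.lt hD hr hz.1 hz.2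
          have h2 := hz.1
          rw [mem_Ico] at h2 ⊢
          omega
        constructor
        · have h1 := contr (g := fun S => -(Fn r x y S : ℝ)) hST hD hr (s := s) (by omega)
            (fun s' h2 h3 => hav' s' (by omega) (by omega)) (v := -u) (f₀ := -f₀) (by linarith)
            (fun S' hS' => by
              have := (hS S' hS').1
              show -(Fn r x y S' : ℝ) ≤ -u * En r S'
              linarith)
            (by
              show -(Fn r x y (Ico (l + s + D) b) : ℝ) ≤ -f₀ * En r (Ico (l + s + D) b)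
              rw [hf1]
              linarith) D 0 (by omega) S hSs hsub
          have h2 : -(Fn r x y S : ℝ) ≤ (-u - (1 / (2 * (D : ℝ))) ^ D * (-u - -f₀)) * En r S := h1
          have h3 : (-u - (1 / (2 * (D : ℝ))) ^ D * (-u - -f₀)) * (En r S : ℝ) =
              -((u + (1 / (2 * (D : ℝ))) ^ D * (f₀ - u)) * En r S) := by ring
          rw [h3] at h2
          linarith
        · exact contr (g := fun S => (Fn r x y S : ℝ)) hST hD hr (s := s) (by omega)
            (fun s' h2 h3 => hav s' (by omega) (by omega)) (v := v) (f₀ := f₀) hfv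
            (fun S' hS' => (hS S' hS').2) hf1.le D 0 (by omega) S hSs hsub
  have hqD : D ≤ (q + 1) * D := Nat.le_mul_of_pos_left D (Nat.succ_pos q)
  obtain ⟨u, v, huv, hS⟩ := hmain q (a - l) (by omega) (by omega)
  have h1 := hS (Ico a b) (Up.Ico hr hla (by omega))
  have h2 : u * En r (Ico l b) ≤ Fn r x y (Ico l b) ∧ (Fn r x y (Ico l b) : ℝ) ≤ v * En r (Ico l b) := by
    have h3 : Up r l b 0 (Ico l b) := by
      have := Up.Ico (b := b) hr (l := l) (a := l) le_rfl (by omega)
      rwa [Nat.sub_self] at this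
    constructor
    · have h4 := desc (g := fun S => -(Fn r x y S : ℝ)) (r := r) (l := l) (b := b) (s := 0) (v := -u) (a - l) (by omega)
        (fun s' h5 h6 => hav' s' (by omega) (by omega))
        (fun S' hS' => by
          rw [zero_add] at hS'
          have := (hS S' hS').1
          show -(Fn r x y S' : ℝ) ≤ -u * En r S'
          linarith) _ h3
      have h5 : -(Fn r x y (Ico l b) : ℝ) ≤ -u * En r (Ico l b) := h4
      linarith
    · exact desc (g := fun S => (Fn r x y S : ℝ)) (r := r) (l := l) (b := b) (s := 0) (v := v) (a - l) (by omega)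
        (fun s' h5 h6 => hav s' (by omega) (by omega))
        (fun S' hS' => by
          rw [zero_add] at hS'
          exact (hS S' hS').2) _ h3
  have h3 : u ≤ pr r x y (Ico a b) ∧ pr r x y (Ico a b) ≤ v := by
    unfold pr
    rw [le_div_iff₀ (hpos _), div_le_iff₀ (hpos _)]
    exact h1
  have h4 : u ≤ pr r x y (Ico l b) ∧ pr r x y (Ico l b) ≤ v := by
    unfold pr
    rw [le_div_iff₀ (hpos _), div_le_iff₀ (hpos _)]
    exact h2
  rw [abs_le]
  constructor <;> linarith [h3.1, h3.2, h4.1, h4.2]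

end Run7.h640.FP2
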